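import Pool.Agent.helper62.EN.SpecP
import Pool.Agent.helper72.RS.PKT
import Pool.Agent.helper62.RS.All

/-!
# MP_07c750, project EN, row PK2: packets for all functions at once
-/

set_option autoImplicit false

open scoped MatrixGroups ContDiff Topology UpperHalfPlane ComplexConjugate
open UpperHalfPlane MeasureTheory Filter Set

namespace Pool.Agent.EN

open Pool.Agent.RS

noncomputable section

/-- the width of the `m`-th packet -/
def PK2_w (m : ℕ) : ℝ := 1 / (64 * ((m : ℝ) + 24))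

theorem PK2_w_pos (m : ℕ) : 0 < PK2_w m := by
  unfold PK2_w
  positivity

theorem PK2_w_le (m : ℕ) : PK2_w m ≤ 1 / 64 := by
  unfold PK2_w
  have hm : (0 : ℝ) ≤ (m : ℝ) := Nat.cast_nonneg m
  apply one_div_le_one_div_of_le (by norm_num)
  linarith

theorem PK2_w_sq (m : ℕ) : 3 * PK2_w m ^ 2 ≤ (1 / ((m : ℝ) + 24)) ^ 2 := by
  have hm : (0 : ℝ) ≤ (m : ℝ) := Nat.cast_nonneg m
  have h1 : PK2_w m = (1 / 64) * (1 / ((m : ℝ) + 24)) := by
    unfold PK2_w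
    field_simp
  rw [h1, mul_pow]
  have h2 : 0 ≤ (1 / ((m : ℝ) + 24)) ^ 2 := by positivity
  nlinarith

theorem PK2_w_small (ε : ℝ) (hε : 0 < ε) : ∃ m₀ : ℕ, ∀ m : ℕ, m₀ ≤ m → PK2_w m ≤ ε := by
  obtain ⟨m₀, hm₀⟩ := exists_nat_gt (1 / ε)
  refine ⟨m₀, fun m hm => ?_⟩
  unfold PK2_w
  have h0 : (m₀ : ℝ) ≤ (m : ℝ) := by exact_mod_cast hm
  have h00 : (0 : ℝ) ≤ (m : ℝ) := Nat.cast_nonneg m
  have h1 : 1 / ε ≤ 64 * ((m : ℝ) + 24) := by linarith
  calc 1 / (64 * ((m : ℝ) + 24)) ≤ 1 / (1 / ε) := one_div_le_one_div_of_le (by positivity) h1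
    _ = ε := one_div_one_div ε

theorem PK2_aux (hCV1 : CV1_stmt) (hNM2 : NM2_stmt) (hOV2 : OV2_stmt) (hINB : INB_stmt) (hQNT : QNT_stmt) : PK2_stmt := by
  intro Γ F hΓ hF
  have hpack : ∀ m : ℕ, ∃ (c : ℍ → ℂ) (A K r0 : ℝ), TB (PK2_w m) c ∧ (∀ z, conj (c z) = c z) ∧ 0 < A ∧ 0 < K ∧ 1 ≤ r0 ∧
      ∀ r : ℝ, r0 ≤ r → (∀ u : ℍ → ℂ, InvC Γ u → qn F c r u ≤ A / r * nn F u) ∧
        (∀ g g' : SL(2, ℝ), ‖∫ z : ℍ, RS.pk r c (g⁻¹ • z) * RS.pk r c (g'⁻¹ • z)‖ ≤ K / Real.sqrt r) ∧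
        ∀ (s : ℝ) (φ : ℍ → ℂ), |s - r| ≤ 1 → EigL Γ (1 / 4 + s ^ 2) φ →
          (1 - 2 * PK2_w m ^ 2 - PK2_w m ^ 2) * (A / r) * nn F φ ≤ qn F c r φ ∧
          qn F (xm c) r φ ≤ (PK2_w m ^ 2 + PK2_w m ^ 2) * (A / r) * nn F φ := by
    intro m
    have hw := PK2_w_pos m
    have hw64 := PK2_w_le m
    obtain ⟨α, hα, hα0, hα1, hα2⟩ := PKT_bump (PK2_w m) hw
    obtain ⟨hTB, -, -, -⟩ := hCV1.2.2 (PK2_w m) α α hα hα
    obtain ⟨A, r0, hA, hr0, hnm⟩ := hNM2 Γ F (PK2_w m) α α hΓ hF hw (by linarith) hα hα hα0 hα1 hα2 (PK2_w m ^ 2) (by positivity)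
    obtain ⟨K2, hK2, hov⟩ := hOV2 (pc α α) (PKT_mono (PK2_w m) _ _ hTB hw64)
    exact ⟨pc α α, A, K2, r0, hTB, fun z => Complex.conj_ofReal _, hA, hK2, hr0, fun r hr =>
      ⟨(hnm r hr).1, fun g g' => hov r g g' (hr0.trans hr), (hnm r hr).2⟩⟩
  choose c A K r0 hTB hreal hA hK hr0 hmain using hpack
  refine ⟨c, A, K, r0, fun m => ?_, ?_⟩
  · have hw64 := PK2_w_le m
    refine ⟨PKT_mono (PK2_w m) _ _ (hTB m) (by linarith), hA m, hK m, hr0 m, fun r hr => ?_⟩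
    obtain ⟨hup, hov, hnm⟩ := hmain m r hr
    refine ⟨hup, hov, fun s ψ hs hψ => ?_⟩
    have hrpos : 0 < r := by linarith [hr0 m]
    have hnn : 0 ≤ nn F ψ := integral_nonneg fun z => sq_nonneg _
    have hX : 0 ≤ A m / r * nn F ψ := mul_nonneg (div_nonneg (hA m).le hrpos.le) hnn
    have h1 := (hnm s ψ hs hψ).1
    have h2 := PK2_w_sq m
    calc (1 - (1 / ((m : ℝ) + 24)) ^ 2) * (A m / r) * nn F ψ = (1 - (1 / ((m : ℝ) + 24)) ^ 2) * (A m / r * nn F ψ) := by ring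
      _ ≤ (1 - 2 * PK2_w m ^ 2 - PK2_w m ^ 2) * (A m / r * nn F ψ) := mul_le_mul_of_nonneg_right (by linarith) hX
      _ = (1 - 2 * PK2_w m ^ 2 - PK2_w m ^ 2) * (A m / r) * nn F ψ := by ring
      _ ≤ qn F (c m) r ψ := h1
  · intro V hV hV2 hV0 hV1 η hη
    obtain ⟨B, hB, hinb⟩ := hINB Γ F V hΓ hF hV hV2
    obtain ⟨w0, hw0, hqnt⟩ := hQNT Γ F V hΓ hF hV hV0 hV1 (η / 4) (by positivity)
    obtain ⟨m₁, hm₁⟩ := PK2_w_small w0 hw0
    obtain ⟨m₂, hm₂⟩ := PK2_w_small (η / (8 * (B + 1))) (by positivity)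
    refine ⟨max m₁ m₂, fun m hm => ?_⟩
    have hw := PK2_w_pos m
    have hw64 := PK2_w_le m
    have hww0 : PK2_w m ≤ w0 := hm₁ m ((le_max_left _ _).trans hm)
    have hwB : PK2_w m ≤ η / (8 * (B + 1)) := hm₂ m ((le_max_right _ _).trans hm)
    obtain ⟨ρ, hρdef⟩ : ∃ ρ : ℝ, ρ = 2 * PK2_w m := ⟨_, rfl⟩
    have hρ : 0 < ρ := by rw [hρdef]; positivity
    have hρ2 : PK2_w m ^ 2 + PK2_w m ^ 2 ≤ ρ ^ 2 := by rw [hρdef]; nlinarith [sq_nonneg (PK2_w m)]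
    have hBρ : B * ρ ≤ η / 4 := by
      rw [le_div_iff₀ (by positivity)] at hwB
      rw [hρdef]
      nlinarith
    obtain ⟨K1, hK1, hinb2⟩ := hinb (c m) (PKT_mono (PK2_w m) _ _ (hTB m) (by linarith)) (hreal m)
    have hAm := hA m
    obtain ⟨K', hK'def⟩ : ∃ K' : ℝ, K' = 1 + 4 * K1 / (A m * η) := ⟨_, rfl⟩
    have hK0 : 0 ≤ 4 * K1 / (A m * η) := by positivity
    have hK' : 0 < K' := by rw [hK'def]; linarith
    refine ⟨K', max (r0 m) 100, hK', fun r hr s φ hs hφ t ht het => ?_⟩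
    have hr0' : r0 m ≤ r := (le_max_left _ _).trans hr
    have hr100 : 100 ≤ r := (le_max_right _ _).trans hr
    have hrpos : 0 < r := by linarith
    obtain ⟨hup, -, hnm⟩ := hmain m r hr0'
    obtain ⟨-, hxm⟩ := hnm s φ hs hφ
    have hinv : InvC Γ φ := ⟨PKT_cont φ hφ.1, hφ.2.1⟩
    have hnn : 0 ≤ nn F φ := integral_nonneg fun z => sq_nonneg _
    have hAr : 0 < A m / r := div_pos hAm hrpos
    have hX : 0 ≤ A m / r * nn F φ := mul_nonneg hAr.le hnn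
    have e1 := hinb2 r s t φ (by linarith) hs (by linarith) ht hφ
    have e2 := hqnt (PK2_w m) (c m) r (A m / r) hw hww0 (hTB m) hup hAr.le φ hinv
    have e3 := hup φ hinv
    have e4 : Real.sqrt (qn F (c m) r φ) ≤ Real.sqrt (A m / r * nn F φ) := Real.sqrt_le_sqrt e3
    have e5 : Real.sqrt (qn F (xm (c m)) r φ) ≤ ρ * Real.sqrt (A m / r * nn F φ) := by
      have h1 : ρ * Real.sqrt (A m / r * nn F φ) = Real.sqrt (ρ ^ 2 * (A m / r * nn F φ)) := by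
        rw [Real.sqrt_mul (sq_nonneg ρ), Real.sqrt_sq hρ.le]
      rw [h1]
      apply Real.sqrt_le_sqrt
      refine hxm.trans ?_
      rw [mul_assoc]
      exact mul_le_mul_of_nonneg_right hρ2 hX
    have e6 : Real.sqrt (qn F (c m) r φ) * Real.sqrt (qn F (xm (c m)) r φ) ≤ ρ * (A m / r * nn F φ) := by
      calc Real.sqrt (qn F (c m) r φ) * Real.sqrt (qn F (xm (c m)) r φ) ≤
          Real.sqrt (A m / r * nn F φ) * (ρ * Real.sqrt (A m / r * nn F φ)) :=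
            mul_le_mul e4 e5 (Real.sqrt_nonneg _) (Real.sqrt_nonneg _)
        _ = ρ * (Real.sqrt (A m / r * nn F φ) * Real.sqrt (A m / r * nn F φ)) := by ring
        _ = ρ * (A m / r * nn F φ) := by rw [Real.mul_self_sqrt hX]
    have e7 : B * (Real.sqrt (qn F (c m) r φ) * Real.sqrt (qn F (xm (c m)) r φ)) ≤ η / 4 * (A m / r * nn F φ) := by
      calc B * (Real.sqrt (qn F (c m) r φ) * Real.sqrt (qn F (xm (c m)) r φ)) ≤ B * (ρ * (A m / r * nn F φ)) :=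
            mul_le_mul_of_nonneg_left e6 hB
        _ = (B * ρ) * (A m / r * nn F φ) := by ring
        _ ≤ η / 4 * (A m / r * nn F φ) := mul_le_mul_of_nonneg_right hBρ hX
    have e8 : K1 * Real.exp t / r ^ 2 ≤ η / 4 * (A m / r) := by
      have h1 : K1 ≤ A m * η / 4 * K' := by
        have h2 : 4 * K1 / (A m * η) ≤ K' := by rw [hK'def]; linarith
        rw [div_le_iff₀ (by positivity)] at h2
        linarith
      have h3 : K' * Real.exp t ≤ r := by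
        rw [le_div_iff₀ hK'] at het
        linarith
      have h4 : K1 * Real.exp t ≤ A m * η / 4 * r := by
        calc K1 * Real.exp t ≤ (A m * η / 4 * K') * Real.exp t := mul_le_mul_of_nonneg_right h1 (Real.exp_nonneg t)
          _ = A m * η / 4 * (K' * Real.exp t) := by ring
          _ ≤ A m * η / 4 * r := mul_le_mul_of_nonneg_left h3 (by positivity)
      calc K1 * Real.exp t / r ^ 2 ≤ (A m * η / 4 * r) / r ^ 2 := div_le_div_of_nonneg_right h4 (by positivity)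
        _ = η / 4 * (A m / r) := by field_simp
    have e9 : K1 * Real.exp t / r ^ 2 * nn F φ ≤ η / 4 * (A m / r * nn F φ) := by
      calc K1 * Real.exp t / r ^ 2 * nn F φ ≤ η / 4 * (A m / r) * nn F φ := mul_le_mul_of_nonneg_right e8 hnn
        _ = η / 4 * (A m / r * nn F φ) := by ring
    have e10 := (abs_le.mp e1).2
    have e11 : A m / r * ((∫ z in F, V z * ‖φ z‖ ^ 2) + η / 4 * nn F φ) =
        A m / r * (∫ z in F, V z * ‖φ z‖ ^ 2) + η / 4 * (A m / r * nn F φ) := by ring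
    have e12 : A m / r * ((∫ z in F, V z * ‖φ z‖ ^ 2) + η * nn F φ) =
        A m / r * (∫ z in F, V z * ‖φ z‖ ^ 2) + η * (A m / r * nn F φ) := by ring
    rw [e11] at e2
    rw [e12]
    have e13 : 0 ≤ η * (A m / r * nn F φ) := mul_nonneg hη.le hX
    linarith

end

theorem PK2_proof : PK2_stmt := PK2_aux RS.A_CV1 RS.A_NM2 RS.A_OV2 RS.A_INB RS.A_QNT

end Pool.Agent.EN
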