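import Pool.Agent.helper80.EN.Spec

/-!
# Row LNI: solvable groups and locally nilpotent groups are in `InL`.
-/

set_option autoImplicit false

namespace Pool.Agent.helper80.EN

open Subgroup

universe u

theorem LNI_der (hLAB : LAB_stmt.{u}) : ∀ (n : ℕ) (G : Type u) [Group G],
    derivedSeries G n = ⊥ → InL G := by
  intro n
  induction n with
  | zero =>
    intro G _ h
    apply hLAB
    intro a b
    have ha : a ∈ (⊥ : Subgroup G) := by rw [← h]; exact mem_top a
    rw [mem_bot] at ha
    rw [ha]
    simp
  | succ n ih =>
    intro G _ h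
    refine InL.ext (derivedSeries G n) ?_ ?_
    · apply hLAB
      intro a b
      apply Subtype.ext
      have h1 := commutator_mem_commutator (H₁ := derivedSeries G n) (H₂ := derivedSeries G n)
        a.2 b.2
      rw [← derivedSeries_succ, h, mem_bot, commutatorElement_eq_one_iff_mul_comm] at h1
      exact h1
    · apply ih
      rw [← map_derivedSeries_eq (QuotientGroup.mk'_surjective (derivedSeries G n)) n,
        QuotientGroup.map_mk'_self]

/-- **LNI**. -/
theorem LNI (hLAB : LAB_stmt.{u}) : LNI_stmt.{u} := by
  intro G _
  have hsol : ∀ (H : Type u) [Group H], Group.IsSolvable H → InL H := by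
    intro H _ hH
    obtain ⟨n, hn⟩ := hH.solvable
    exact LNI_der hLAB n H hn
  refine ⟨hsol G, fun hG => ?_⟩
  refine InL.union (fun s => closure (s : Set G)) (fun s => subset_closure) (fun s => ?_)
  have hn : Group.IsNilpotent (closure (s : Set G)) := hG _ ⟨s, rfl⟩ le_top
  exact hsol _ inferInstance

end Pool.Agent.helper80.EN
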